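import Pool.Agent.K7.H22.LW.Stm

set_option autoImplicit false

/-!
# Closure properties of `IsPoly`
-/

open Finset

namespace Pool.Agent.K7.H55.LW

open Pool.Agent.K7.H22.LW

theorem isPoly_const (N d : ℕ) (C c : ℝ) (h : |c| ≤ C) : IsPoly N d C (fun _ => c) :=
  ⟨[(c, [])], by simp, by simpa using h, by simp⟩

theorem isPoly_var (N d i : ℕ) (hi : i < N) (hd : 1 ≤ d) : IsPoly N d 1 (fun b => b i) :=
  ⟨[(1, [i])], by simp [hi, hd], by simp, by simp⟩

theorem isPoly_mono (N d : ℕ) (C : ℝ) (f : (ℕ → ℝ) → ℝ) (N' d' : ℕ) (C' : ℝ)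
    (h : IsPoly N d C f) (hN : N ≤ N') (hd : d ≤ d') (hC : C ≤ C') : IsPoly N' d' C' f := by
  obtain ⟨L, h1, h2, h3⟩ := h
  exact ⟨L, fun t ht => ⟨(h1 t ht).1.trans hd, fun u hu => ((h1 t ht).2 u hu).trans_le hN⟩,
    h2.trans hC, h3⟩

theorem isPoly_add (N d : ℕ) (C C' : ℝ) (f f' : (ℕ → ℝ) → ℝ) (h : IsPoly N d C f)
    (h' : IsPoly N d C' f') : IsPoly N d (C + C') (fun b => f b + f' b) := by
  obtain ⟨L, h1, h2, h3⟩ := h
  obtain ⟨L', h1', h2', h3'⟩ := h'
  refine ⟨L ++ L', ?_, ?_, ?_⟩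
  · intro t ht
    rcases List.mem_append.1 ht with ht | ht
    · exact h1 t ht
    · exact h1' t ht
  · rw [List.map_append, List.sum_append]
    exact add_le_add h2 h2'
  · intro b
    show f b + f' b = _
    rw [List.map_append, List.sum_append, h3, h3']

theorem isPoly_nonneg {N d : ℕ} {C : ℝ} {f : (ℕ → ℝ) → ℝ} (h : IsPoly N d C f) : 0 ≤ C := by
  obtain ⟨L, -, h2, -⟩ := h
  refine le_trans (List.sum_nonneg ?_) h2
  intro x hx
  obtain ⟨t, -, rfl⟩ := List.mem_map.1 hx
  exact abs_nonneg _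

theorem isPoly_term (N d d' : ℕ) (C' : ℝ) (f' : (ℕ → ℝ) → ℝ) (h' : IsPoly N d' C' f')
    (c : ℝ) (l : List ℕ) (hl : l.length ≤ d) (hl' : ∀ u ∈ l, u < N) :
    IsPoly N (d + d') (|c| * C') (fun b => c * (l.map b).prod * f' b) := by
  obtain ⟨L, h1, h2, h3⟩ := h'
  refine ⟨L.map fun t => (c * t.1, l ++ t.2), ?_, ?_, ?_⟩
  · intro t ht
    obtain ⟨s, hs, rfl⟩ := List.mem_map.1 ht
    refine ⟨?_, ?_⟩
    · simp only [List.length_append]
      exact add_le_add hl (h1 s hs).1
    · intro u hu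
      rcases List.mem_append.1 hu with hu | hu
      · exact hl' u hu
      · exact (h1 s hs).2 u hu
  · have : ((L.map fun t => (c * t.1, l ++ t.2)).map fun t => |t.1|).sum
        = |c| * (L.map fun t => |t.1|).sum := by
      rw [List.map_map, ← List.sum_map_mul_left]
      congr 1
      apply List.map_congr_left
      intro t _
      simp [abs_mul]
    rw [this]
    exact mul_le_mul_of_nonneg_left h2 (abs_nonneg _)
  · intro b
    show c * (l.map b).prod * f' b = _
    rw [h3, List.map_map, ← List.sum_map_mul_left]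
    congr 1
    apply List.map_congr_left
    intro t _
    simp only [Function.comp, List.map_append, List.prod_append]
    ring

theorem isPoly_mul (N d d' : ℕ) (C C' : ℝ) (f f' : (ℕ → ℝ) → ℝ) (h : IsPoly N d C f)
    (h' : IsPoly N d' C' f') : IsPoly N (d + d') (C * C') (fun b => f b * f' b) := by
  have hC' := isPoly_nonneg h'
  obtain ⟨L, h1, h2, h3⟩ := h
  have key : ∀ L : List (ℝ × List ℕ), (∀ t ∈ L, t.2.length ≤ d ∧ ∀ u ∈ t.2, u < N) →
      IsPoly N (d + d') ((L.map fun t => |t.1|).sum * C')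
        (fun b => (L.map fun t => t.1 * (t.2.map b).prod).sum * f' b) := by
    intro L
    induction L with
    | nil =>
      intro _
      simpa using isPoly_const N (d + d') 0 0 (by simp)
    | cons t L ih =>
      intro ht
      have a1 := ih (fun s hs => ht s (List.mem_cons_of_mem _ hs))
      have a2 := isPoly_term N d d' C' f' h' t.1 t.2 (ht t List.mem_cons_self).1
        (ht t List.mem_cons_self).2
      have a3 := isPoly_add _ _ _ _ _ _ a2 a1
      simp only [List.map_cons, List.sum_cons, add_mul]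
      exact a3
  have e : (fun b => f b * f' b) = fun b => (L.map fun t => t.1 * (t.2.map b).prod).sum * f' b := by
    funext b
    rw [h3]
  rw [e]
  exact isPoly_mono _ _ _ _ _ _ _ (key L h1) le_rfl le_rfl (mul_le_mul_of_nonneg_right h2 hC')

theorem isPoly_shift (N d : ℕ) (C : ℝ) (f : (ℕ → ℝ) → ℝ) (k : ℕ) (h : IsPoly N d C f) :
    IsPoly (k + N) d C (fun b => f (fun i => b (k + i))) := by
  obtain ⟨L, h1, h2, h3⟩ := h
  refine ⟨L.map fun t => (t.1, t.2.map (k + ·)), ?_, ?_, ?_⟩
  · intro t ht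
    obtain ⟨s, hs, rfl⟩ := List.mem_map.1 ht
    refine ⟨by simpa using (h1 s hs).1, ?_⟩
    intro u hu
    obtain ⟨v, hv, rfl⟩ := List.mem_map.1 hu
    have := (h1 s hs).2 v hv
    show k + v < k + N
    omega
  · rw [List.map_map]
    exact h2
  · intro b
    show f (fun i => b (k + i)) = _
    rw [h3, List.map_map]
    congr 1
    apply List.map_congr_left
    intro t _
    simp only [Function.comp, List.map_map]
    rfl

theorem isPoly_blocks (N d : ℕ) (C : ℝ) (f : (ℕ → ℝ) → ℝ) (M g : ℕ) (_hC : 0 ≤ C)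
    (h : IsPoly N d C f) (hg : N ≤ g) :
    IsPoly (M * g) (M * d) (C ^ M) (fun b => ∏ j ∈ range M, f (fun i => b (j * g + i))) := by
  induction M with
  | zero => simpa using isPoly_const (0 * g) (0 * d) 1 1 (by simp)
  | succ M ih =>
    have a1 : IsPoly ((M + 1) * g) (M * d) (C ^ M)
        (fun b => ∏ j ∈ range M, f (fun i => b (j * g + i))) :=
      isPoly_mono _ _ _ _ _ _ _ ih (Nat.mul_le_mul_right _ (Nat.le_succ M)) le_rfl le_rfl
    have a2 : IsPoly ((M + 1) * g) d C (fun b => f (fun i => b (M * g + i))) :=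
      isPoly_mono _ _ _ _ _ _ _ (isPoly_shift N d C f (M * g) h)
        (by rw [Nat.add_mul, one_mul]; omega) le_rfl le_rfl
    have a3 := isPoly_mul _ _ _ _ _ _ _ a1 a2
    have e : (fun b : ℕ → ℝ => ∏ j ∈ range (M + 1), f (fun i => b (j * g + i)))
        = fun b => (∏ j ∈ range M, f (fun i => b (j * g + i))) * f (fun i => b (M * g + i)) := by
      funext b
      rw [prod_range_succ]
    rw [e, pow_succ, Nat.add_mul, one_mul, Nat.add_mul, one_mul]
    rw [Nat.add_mul, one_mul] at a3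
    exact a3

theorem p : StP :=
  ⟨isPoly_const, isPoly_var, isPoly_mono, isPoly_add, isPoly_mul,
    fun N d C f k h => isPoly_shift N d C f k h, isPoly_blocks⟩

end Pool.Agent.K7.H55.LW
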