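import Pool.Agent.K7.H22.LW.Stm
import Pool.Agent.K7.H55.LW.P

set_option autoImplicit false

/-!
# The second majorant
-/

open Finset

namespace Pool.Agent.K7.H55.LW

open Pool.Agent.K7.H22.LW

theorem S_congr {g : ℕ} {b b' : ℕ → ℝ} (h : ∀ i < g, b i = b' i) : S b g = S b' g :=
  sum_congr rfl fun i hi => h i (mem_range.1 hi)

theorem S_add (b : ℕ → ℝ) (k r : ℕ) : S b (k + r) = S b k + S (fun i => b (k + i)) r := by
  unfold S
  rw [sum_range_add]

theorem isPoly_S (N s : ℕ) (hs : s ≤ N) : IsPoly N 1 s (fun b => S b s) := by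
  induction s with
  | zero => simpa [S] using isPoly_const N 1 0 0 (by simp)
  | succ s ih =>
    have a1 := isPoly_add _ _ _ _ _ _ (ih (by omega)) (isPoly_var N 1 s (by omega) le_rfl)
    have e : (fun b : ℕ → ℝ => S b (s + 1)) = fun b => S b s + b s := by
      funext b
      unfold S
      rw [sum_range_succ]
    rw [e, Nat.cast_add, Nat.cast_one]
    exact a1

theorem isPoly_S4 (N s : ℕ) (hs : s ≤ N) : IsPoly N 4 ((s : ℝ) ^ 4) (fun b => S b s ^ 4) := by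
  have h1 := isPoly_S N s hs
  have h2 := isPoly_mul _ _ _ _ _ _ _ h1 h1
  have h4 := isPoly_mul _ _ _ _ _ _ _ h2 h2
  have e : (fun b : ℕ → ℝ => S b s ^ 4) = fun b => S b s * S b s * (S b s * S b s) := by
    funext b
    ring
  have e' : ((s : ℝ) ^ 4) = (s : ℝ) * s * (s * s) := by ring
  rw [e, e']
  exact h4

theorem isPoly_smul (N d : ℕ) (C c : ℝ) (f : (ℕ → ℝ) → ℝ) (h : IsPoly N d C f) (hc : 0 ≤ c) :
    IsPoly N d (c * C) (fun b => c * f b) := by
  have h1 := isPoly_mul _ 0 d _ _ _ _ (isPoly_const N 0 c c (by rw [abs_of_nonneg hc])) h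
  rwa [Nat.zero_add] at h1

theorem isPoly_Q (n : ℕ) : IsPoly (2 ^ n) 4 (20 * 16 ^ n) (Q n) := by
  induction n with
  | zero =>
    have h := isPoly_S4 1 1 le_rfl
    have e : (fun b : ℕ → ℝ => S b 1 ^ 4) = Q 0 := by
      funext b
      simp [S, Q]
    rw [e] at h
    exact isPoly_mono _ _ _ _ _ _ _ h (by norm_num) le_rfl (by norm_num)
  | succ n ih =>
    have h1 : IsPoly (2 ^ (n + 1)) 4 (216 * ((2 ^ n : ℕ) : ℝ) ^ 4)
        (fun b => 216 * S b (2 ^ n) ^ 4) :=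
      isPoly_smul _ _ _ 216 _ (isPoly_S4 (2 ^ (n + 1)) (2 ^ n)
        (Nat.pow_le_pow_right (by norm_num) (Nat.le_succ n))) (by norm_num)
    have h2 : IsPoly (2 ^ (n + 1)) 4 (20 * 16 ^ n) (Q n) :=
      isPoly_mono _ _ _ _ _ _ _ ih (Nat.pow_le_pow_right (by norm_num) (Nat.le_succ n)) le_rfl le_rfl
    have h3 : IsPoly (2 ^ (n + 1)) 4 (20 * 16 ^ n) (fun b => Q n (fun i => b (2 ^ n + i))) :=
      isPoly_mono _ _ _ _ _ _ _ (isPoly_shift _ _ _ _ (2 ^ n) ih)
        (by rw [pow_succ]; omega) le_rfl le_rfl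
    have h4 := isPoly_smul _ _ _ (216 / 125) _ (isPoly_add _ _ _ _ _ _ h2 h3) (by norm_num)
    have h5 := isPoly_add _ _ _ _ _ _ h1 h4
    have e : (fun b : ℕ → ℝ => 216 * S b (2 ^ n) ^ 4
        + 216 / 125 * (Q n b + Q n (fun i => b (2 ^ n + i)))) = Q (n + 1) := rfl
    rw [← e]
    refine isPoly_mono _ _ _ _ _ _ _ h5 le_rfl le_rfl ?_
    have e1 : (((2 ^ n : ℕ) : ℝ)) ^ 4 = 16 ^ n := by
      push_cast
      rw [← pow_mul, mul_comm n 4, pow_mul]
      norm_num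
    rw [e1, pow_succ]
    nlinarith [pow_pos (show (0 : ℝ) < 16 by norm_num) n]

theorem Q_nonneg (n : ℕ) : ∀ b : ℕ → ℝ, 0 ≤ Q n b := by
  induction n with
  | zero => intro b; simp only [Q]; positivity
  | succ n ih =>
    intro b
    have h1 := ih b
    have h2 := ih (fun i => b (2 ^ n + i))
    simp only [Q]
    positivity

theorem Q_congr (n : ℕ) : ∀ b b' : ℕ → ℝ, (∀ i < 2 ^ n, b i = b' i) → Q n b = Q n b' := by
  induction n with
  | zero => intro b b' h; simp only [Q]; rw [h 0 (by norm_num)]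
  | succ n ih =>
    intro b b' h
    have hp : 2 ^ (n + 1) = 2 ^ n + 2 ^ n := by rw [pow_succ]; omega
    have h1 := ih b b' (fun i hi => h i (by omega))
    have h2 := ih (fun i => b (2 ^ n + i)) (fun i => b' (2 ^ n + i)) (fun i hi => h _ (by omega))
    have h3 : S b (2 ^ n) = S b' (2 ^ n) := S_congr (fun i hi => h i (by omega))
    simp only [Q]
    rw [h1, h2, h3]

theorem four_ineq (a c : ℝ) : (a + c) ^ 4 ≤ 216 * a ^ 4 + 216 / 125 * c ^ 4 := by
  nlinarith [sq_nonneg ((5 * a - c) * (a + c)), sq_nonneg ((5 * a - c) * a), sq_nonneg ((5 * a - c) * c),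
    sq_nonneg (5 * a - c), mul_nonneg (sq_nonneg (5 * a - c)) (sq_nonneg (a + c)),
    mul_nonneg (sq_nonneg (5 * a - c)) (sq_nonneg (a)), mul_nonneg (sq_nonneg (5 * a - c)) (sq_nonneg (c)),
    mul_nonneg (sq_nonneg (5 * a - c)) (sq_nonneg (a - c))]

theorem Q_ge (n : ℕ) : ∀ (b : ℕ → ℝ) (s : ℕ), s ≤ 2 ^ n → S b s ^ 4 ≤ Q n b := by
  induction n with
  | zero =>
    intro b s hs
    have hs' : s = 0 ∨ s = 1 := by
      have : s ≤ 1 := by simpa using hs
      omega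
    rcases hs' with rfl | rfl
    · simp only [S, Q, range_zero, sum_empty]
      rw [zero_pow (by norm_num)]
      positivity
    · simp [S, Q]
  | succ n ih =>
    intro b s hs
    have hp : 2 ^ (n + 1) = 2 ^ n + 2 ^ n := by rw [pow_succ]; omega
    have h1 := Q_nonneg n b
    have h2 := Q_nonneg n (fun i => b (2 ^ n + i))
    by_cases hs' : s ≤ 2 ^ n
    · have h3 := ih b s hs'
      have h4 : 0 ≤ S b (2 ^ n) ^ 4 := by positivity
      simp only [Q]
      linarith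
    · obtain ⟨r, rfl⟩ := Nat.exists_eq_add_of_le (le_of_not_ge hs')
      have h3 := ih (fun i => b (2 ^ n + i)) r (by omega)
      rw [S_add]
      have h4 := four_ineq (S b (2 ^ n)) (S (fun i => b (2 ^ n + i)) r)
      simp only [Q]
      linarith

theorem E_Q (hE : StE) (n : ℕ) : E (2 ^ n) (Q n) ≤ 1200 * 4 ^ n := by
  obtain ⟨e1, e2, e3, e4, e5, e6⟩ := hE
  induction n with
  | zero =>
    have h := e6 1
    have e : (fun b : ℕ → ℝ => S b 1 ^ 4) = Q 0 := by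
      funext b
      simp [S, Q]
    rw [e] at h
    norm_num at h ⊢
    linarith
  | succ n ih =>
    have hp : 2 ^ (n + 1) = 2 ^ n + 2 ^ n := by rw [pow_succ]; omega
    have e : Q (n + 1) = fun b : ℕ → ℝ => 216 * S b (2 ^ n) ^ 4
        + (216 / 125 * Q n b + (216 / 125 * Q n (fun i => b (2 ^ n + i)) + 0)) := by
      funext b
      simp only [Q]
      ring
    have a1 := (e4 (2 ^ n) (2 ^ n) (Q n) (Q_congr n)).1
    have a2 := (e4 (2 ^ n) (2 ^ n) (Q n) (Q_congr n)).2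
    have a3 := (e4 (2 ^ n) (2 ^ n) (fun b => S b (2 ^ n) ^ 4)
      (fun b b' h => by show S b (2 ^ n) ^ 4 = S b' (2 ^ n) ^ 4; rw [S_congr h])).2
    have a4 := e6 (2 ^ n)
    have b1 : E (2 ^ n + 2 ^ n) (Q (n + 1)) = 216 * E (2 ^ n) (fun b => S b (2 ^ n) ^ 4)
        + (216 / 125 * E (2 ^ n) (Q n) + (216 / 125 * E (2 ^ n) (Q n) + 0)) := by
      rw [e, e1 _ 216 (fun b => S b (2 ^ n) ^ 4)
        (fun b => 216 / 125 * Q n b + (216 / 125 * Q n (fun i => b (2 ^ n + i)) + 0)),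
        e1 _ (216 / 125) (fun b => Q n b) (fun b => 216 / 125 * Q n (fun i => b (2 ^ n + i)) + 0),
        e1 _ (216 / 125) (fun b => Q n (fun i => b (2 ^ n + i))) (fun _ => 0), e2, a1, a3]
      congr 3
    rw [hp, b1]
    have c1 : (((2 ^ n : ℕ) : ℝ)) ^ 2 = 4 ^ n := by
      push_cast
      rw [← pow_mul, mul_comm n 2, pow_mul]
      norm_num
    rw [c1] at a4
    rw [pow_succ]
    nlinarith [pow_pos (show (0 : ℝ) < 4 by norm_num) n]

theorem b (hE : StE) : StB := by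
  intro n
  have h4 : (0 : ℝ) < 4 ^ n := pow_pos (by norm_num) n
  have h4' : (1 : ℝ) ≤ 4 ^ n := one_le_pow₀ (by norm_num)
  refine ⟨?_, ?_, ?_, ?_⟩
  · have h1 := isPoly_smul _ _ _ (1 / (2 ^ 11 * 4 ^ n)) _ (isPoly_Q n) (by positivity)
    have h2 := isPoly_add _ _ _ _ _ _ (isPoly_const (2 ^ n) 4 1 1 (by simp)) h1
    have e : (fun b : ℕ → ℝ => (1 : ℝ) + 1 / (2 ^ 11 * 4 ^ n) * Q n b) = f₂ n := by
      funext b
      unfold f₂
      ring
    rw [e] at h2
    refine isPoly_mono _ _ _ _ _ _ _ h2 le_rfl le_rfl ?_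
    have e3 : (16 : ℝ) ^ n = 4 ^ n * 4 ^ n := by rw [← mul_pow]; norm_num
    have e4 : 1 / (2 ^ 11 * 4 ^ n) * (20 * 16 ^ n) = 20 / 2 ^ 11 * (4 : ℝ) ^ n := by
      rw [e3]
      field_simp
    rw [e4]
    norm_num
    linarith
  · have h1 := E_Q hE n
    obtain ⟨e1, e2, e3, e4, e5, e6⟩ := hE
    have e : f₂ n = fun b : ℕ → ℝ => 1 / (2 ^ 11 * 4 ^ n) * Q n b + 1 := by
      funext b
      unfold f₂
      ring
    rw [e, e1 _ _ (fun b => Q n b) (fun _ => 1), e2]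
    have h2 : 1 / (2 ^ 11 * 4 ^ n) * E (2 ^ n) (Q n) ≤ 1 / (2 ^ 11 * 4 ^ n) * (1200 * 4 ^ n) :=
      mul_le_mul_of_nonneg_left h1 (by positivity)
    have h3 : 1 / (2 ^ 11 * 4 ^ n) * (1200 * (4 : ℝ) ^ n) = 1200 / 2048 := by
      field_simp
      norm_num
    rw [h3] at h2
    have h5 : E (2 ^ n) (fun b => Q n b) = E (2 ^ n) (Q n) := rfl
    rw [h5]
    linarith
  · intro b
    have := Q_nonneg n b
    unfold f₂
    have h : 0 ≤ Q n b / (2 ^ 11 * 4 ^ n) := by positivity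
    linarith
  · intro b s hs h
    have h1 := Q_ge n b s hs
    unfold f₂
    have h2 : (2 : ℝ) ^ 51 ≤ Q n b / (2 ^ 11 * 4 ^ n) := by
      rw [le_div_iff₀ (by positivity)]
      have : (2 : ℝ) ^ 51 * (2 ^ 11 * 4 ^ n) = 2 ^ 62 * 4 ^ n := by ring
      rw [this]
      linarith
    linarith

end Pool.Agent.K7.H55.LW
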