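import Pool.Agent.K7.H22.LW.Stm

set_option autoImplicit false

/-!
# Independence of the blocks
-/

open Finset

namespace Pool.Agent.K7.H55.LW

open Pool.Agent.K7.H22.LW

theorem sg_append_left {a g : ℕ} (s : Fin a → Bool) (t : Fin g → Bool) (i : ℕ) (hi : i < a) :
    sg (Fin.append s t) i = sg s i := by
  have h : i < a + g := by omega
  unfold sg
  rw [dif_pos h, dif_pos hi]
  have : (⟨i, h⟩ : Fin (a + g)) = Fin.castAdd g ⟨i, hi⟩ := rfl
  rw [this, Fin.append_left]

theorem sg_append_right {a g : ℕ} (s : Fin a → Bool) (t : Fin g → Bool) (i : ℕ) (hi : i < g) :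
    sg (Fin.append s t) (a + i) = sg t i := by
  have h : a + i < a + g := by omega
  unfold sg
  rw [dif_pos h, dif_pos hi]
  have : (⟨a + i, h⟩ : Fin (a + g)) = Fin.natAdd a ⟨i, hi⟩ := rfl
  rw [this, Fin.append_right]

/-- the average of a product of a function of the first `a` signs and a function of the next `g` -/
theorem E_mul (a g : ℕ) (F f : (ℕ → ℝ) → ℝ) (hF : ∀ b b' : ℕ → ℝ, (∀ i < a, b i = b' i) → F b = F b')
    (hf : ∀ b b' : ℕ → ℝ, (∀ i < g, b i = b' i) → f b = f b') :
    E (a + g) (fun b => F b * f (fun i => b (a + i))) = E a F * E g f := by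
  unfold E
  have key : ∑ s : Fin (a + g) → Bool, F (sg s) * f (fun i => sg s (a + i))
      = (∑ s : Fin a → Bool, F (sg s)) * ∑ t : Fin g → Bool, f (sg t) := by
    rw [← (Fin.appendEquiv (α := Bool) a g).sum_comp, Fintype.sum_prod_type, sum_mul_sum]
    refine sum_congr rfl fun s _ => sum_congr rfl fun t _ => ?_
    have e1 : F (sg (Fin.append s t)) = F (sg s) :=
      hF _ _ fun i hi => sg_append_left s t i hi
    have e2 : f (fun i => sg (Fin.append s t) (a + i)) = f (sg t) :=
      hf _ _ fun i hi => sg_append_right s t i hi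
    show F (sg (Fin.append s t)) * f (fun i => sg (Fin.append s t) (a + i)) = _
    rw [e1, e2]
  rw [key, pow_add, mul_div_mul_comm]

theorem i : StI := by
  intro g M f hf
  induction M with
  | zero =>
    unfold E
    simp
  | succ M ih =>
    have e : (fun b : ℕ → ℝ => ∏ j ∈ range (M + 1), f (fun i => b (j * g + i)))
        = fun b => (∏ j ∈ range M, f (fun i => b (j * g + i))) * f (fun i => b (M * g + i)) := by
      funext b
      rw [prod_range_succ]
    rw [e, Nat.add_mul, one_mul, E_mul (M * g) g (fun b => ∏ j ∈ range M, f (fun i => b (j * g + i))) f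
      ?_ hf, ih, pow_succ]
    intro b b' hb
    refine prod_congr rfl fun j hj => ?_
    refine hf _ _ fun i hi => hb _ ?_
    have : j + 1 ≤ M := mem_range.1 hj
    calc j * g + i < j * g + g := by omega
      _ = (j + 1) * g := by ring
      _ ≤ M * g := Nat.mul_le_mul_right _ this

end Pool.Agent.K7.H55.LW
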